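import Mathlib
import Pool.Agent.H200.Assouad

set_option autoImplicit false

/-!
# The typical Assouad spectrum in the `ω`-space is not the maximal one
-/

namespace Pool.Agent.Results.MP_6b2627_an.SpectrumFails

open Set Metric Filter Topology Pool.Agent.H200.Assouad

theorem result : ∃ ω : Modulus, (∀ t, ω.toFun t = √t) ∧ ConcaveOn ℝ (Icc 0 1) ω.toFun ∧
    Tendsto (fun t => Real.log (ω.toFun t) / Real.log t) (𝓝[>] 0) (𝓝 (1 / 2)) ∧
    (∃ (f : Space ω) (ε s : ℝ), 0 < ε ∧ s < 2 ∧ ∀ g ∈ ball f ε, ∀ θ : ℝ, 0 < θ → θ < 1 →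
      assouadSpec θ (graph g.toFun) ≤ s) ∧
    {f : Space ω | ∀ θ : ℝ, 0 < θ → θ ≤ 1 / 2 →
      assouadSpec θ (graph f.toFun) = 2 - (1 / 2 - θ) / (1 - θ)} ∉ residual (Space ω) := by
  obtain ⟨s, hs0, hs2, hs⟩ := ball_bound
  have hball : ∀ g ∈ ball oscPoint (1 / 36), ∀ θ : ℝ, 0 < θ → θ < 1 →
      assouadSpec θ (graph g.toFun) ≤ s :=
    fun g hg θ _ hθ => assouadSpec_le hs0 hθ (hs g hg)
  refine ⟨sqrtModulus, fun _ => rfl, concave_sqrt, tendsto_log_sqrt,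
    ⟨oscPoint, 1 / 36, s, by norm_num, hs2, hball⟩, ?_⟩
  refine not_residual (f := oscPoint) (ε := 1 / 36) (by norm_num) ?_
  intro g hg hg2
  have h1 := hg2 (1 / 2) (by norm_num) le_rfl
  have h2 := hball g hg (1 / 2) (by norm_num) (by norm_num)
  rw [h1] at h2
  norm_num at h2
  linarith

end Pool.Agent.Results.MP_6b2627_an.SpectrumFails
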